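import Pool.Agent.Helper96.VF.Goals

/-!
# Project VF (MP_6829b3_nt), packet VF-UP: the upper bound
-/

set_option autoImplicit false

namespace Pool.Agent.Helper64.VF

open Pool.Agent.Helper96.VF

/-- exponent pairs of the class of `m` -/
def SS (n : ℕ) (A : Finset ℕ) (m : ℕ) : Finset (ℕ × ℕ) :=
  ((Finset.range (n + 1)) ×ˢ (Finset.range (n + 1))).filter
        fun u => 2 ^ u.1 * 3 ^ u.2 * m ∈ A

lemma mem_SS {n : ℕ} {A : Finset ℕ} {m : ℕ} {u : ℕ × ℕ} (h : u ∈ SS n A m) :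
    2 ^ u.1 * 3 ^ u.2 * m ∈ A := (Finset.mem_filter.1 h).2

lemma vfree_SS (hq : UNQ) {n : ℕ} {A : Finset ℕ} (hA : Adm A) {m : ℕ} (hm : Nat.Coprime m 6) :
    VFree (SS n A m) := by
  intro u hu v hv w hw huv huw hvw hh
  obtain ⟨h1, h2⟩ := hh
  have hd : ∀ {u v : ℕ × ℕ}, u ≤ v → 2 ^ u.1 * 3 ^ u.2 * m ∣ 2 ^ v.1 * 3 ^ v.2 * m := by
    intro u v h
    exact Nat.mul_dvd_mul_right (Nat.mul_dvd_mul (pow_dvd_pow 2 h.1) (pow_dvd_pow 3 h.2)) m
  have hne : ∀ {u v : ℕ × ℕ}, u ≠ v → 2 ^ u.1 * 3 ^ u.2 * m ≠ 2 ^ v.1 * 3 ^ v.2 * m := by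
    intro u v h e
    obtain ⟨e1, e2, -⟩ := hq _ _ _ _ _ _ hm hm e
    exact h (Prod.ext e1 e2)
  exact hA _ (mem_SS hu) _ (mem_SS hv) _ (mem_SS hw) (hne huv) (hne huw) (hne hvw) ⟨hd h1, hd h2⟩

lemma inR_SS {n : ℕ} {A : Finset ℕ} (hA : A ⊆ Finset.Icc 1 n) {m : ℕ} (hm : 0 < m) :
    InR (n / m) (SS n A m) := by
  intro u hu
  have := (Finset.mem_Icc.1 (hA (mem_SS hu))).2
  exact (Nat.le_div_iff_mul_le hm).2 this

lemma mem_Cop {n m : ℕ} : m ∈ Cop n ↔ (1 ≤ m ∧ m ≤ n) ∧ Nat.Coprime m 6 := by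
  unfold Cop
  rw [Finset.mem_filter, Finset.mem_Icc]

lemma kap_data {n m : ℕ} (hm : 0 < m) (hc : Nat.Coprime m 6) (h : Kap (n / m)) :
    5 * m ∈ Cop n ∧ ¬ Kap (n / (5 * m)) := by
  obtain ⟨⟨j, hj1, hj2⟩, ⟨B, hB1, hB2⟩⟩ := h
  have hy : n / (5 * m) = n / m / 5 := by
    rw [Nat.div_div_eq_div_mul, mul_comm]
  set y := n / m with hyd
  have p4 : 0 < 4 ^ j := by positivity
  have p3 : 0 < 3 ^ B := by positivity
  refine ⟨?_, ?_⟩
  · rw [mem_Cop]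
    refine ⟨⟨by omega, ?_⟩, ?_⟩
    · have h1 : 1 ≤ n / (5 * m) := by
        rw [hy]
        omega
      have h2 := Nat.div_mul_le_self n (5 * m)
      nlinarith
    · exact Nat.Coprime.mul_left (by norm_num) hc
  · rw [hy]
    rintro ⟨⟨i, hi1, hi2⟩, -⟩
    have q4 : 0 < 4 ^ i := by positivity
    have h1 : 4 ^ (i + 1) < 4 ^ j := by
      rw [pow_succ]
      omega
    have h2 : i + 1 < j := (Nat.pow_lt_pow_iff_right (by norm_num)).1 h1
    have h3 : 4 ^ (i + 2) ≤ 4 ^ j := Nat.pow_le_pow_right (by norm_num) h2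
    rw [pow_add] at h3
    omega

lemma kap_strict (h2 : U2E) (h3 : U2O) (hq : UNQ) {n : ℕ} {A : Finset ℕ}
    (hA : A ⊆ Finset.Icc 1 n) (hAdm : Adm A) {m : ℕ} (hm : 0 < m) (hc : Nat.Coprime m 6)
    (h : Kap (n / m)) (e1 : g (n / m) ≤ (SS n A m).card)
    (e2 : g (n / (5 * m)) ≤ (SS n A (5 * m)).card) : False := by
  have hK := h
  obtain ⟨⟨j, hj1, hj2⟩, ⟨B, hB1, hB2⟩⟩ := h
  have hy : n / (5 * m) = n / m / 5 := by
    rw [Nat.div_div_eq_div_mul, mul_comm]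
  have hc5 : Nat.Coprime (5 * m) 6 := Nat.Coprime.mul_left (by norm_num) hc
  have p4 : 0 < 4 ^ j := by positivity
  have p3 : 0 < 3 ^ B := by positivity
  have hE := h2 (n / m) B j (SS n A m) hB1 hB2 hj1 hj2 (vfree_SS hq hAdm hc) (inR_SS hA hm) e1
  have hO := h3 (n / (5 * m)) B j (SS n A (5 * m)) (by rw [hy]; omega) (by rw [hy]; omega)
    (by rw [hy]; omega) (by rw [hy]; omega) (vfree_SS hq hAdm hc5) (inR_SS hA (by omega)) e2
  have m1 := mem_SS hE.1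
  have m2 := mem_SS hE.2
  have m3 := mem_SS hO
  simp only at m1 m2 m3
  have hpos : 0 < 3 ^ B * m := Nat.mul_pos p3 hm
  have r1 : 2 ^ 1 * 3 ^ B * m = 2 * (3 ^ B * m) := by ring
  have r2 : 2 ^ 2 * 3 ^ B * m = 4 * (3 ^ B * m) := by ring
  have r3 : 2 ^ 1 * 3 ^ B * (5 * m) = 10 * (3 ^ B * m) := by ring
  rw [r1] at m1
  rw [r2] at m2
  rw [r3] at m3
  refine hAdm _ m1 _ m2 _ m3 (by omega) (by omega) (by omega) ⟨?_, ?_⟩
  · exact ⟨2, by ring⟩
  · exact ⟨5, by ring⟩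

lemma g_pos {y : ℕ} (hy : 1 ≤ y) : 1 ≤ g y := by
  unfold g H
  rw [if_neg (by omega : ¬ y = 0)]
  exact le_max_of_le_left (by omega)

/-- **VF-UP** -/
theorem gUP (h1 : U1) (h2 : U2E) (h3 : U2O) (h4 : CLS) (h5 : UNQ) : UP := by
  classical
  intro n A hA hAdm
  rw [h4 n A hA]
  unfold F
  have hle : ∀ m ∈ Cop n, (SS n A m).card ≤ g (n / m) := by
    intro m hm
    obtain ⟨⟨hm1, hm2⟩, hc⟩ := mem_Cop.1 hm
    exact h1 _ _ (vfree_SS h5 hAdm hc) (inR_SS hA hm1)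
  set d : ℕ → ℕ := fun m => g (n / m) - (SS n A m).card with hd
  set κ : ℕ → ℕ := fun m => if Kap (n / m) then 1 else 0 with hκ
  set P : Finset ℕ := (Cop n).filter (fun m => Kap (n / m)) with hP
  have hκle : ∀ m ∈ Cop n, κ m ≤ g (n / m) := by
    intro m hm
    obtain ⟨⟨hm1, hm2⟩, hc⟩ := mem_Cop.1 hm
    have : 1 ≤ n / m := (Nat.le_div_iff_mul_le hm1).2 (by omega)
    have hg := g_pos this
    simp only [hκ]
    split_ifs <;> omega
  have s1 : ∑ m ∈ Cop n, (SS n A m).card + ∑ m ∈ Cop n, d m = ∑ m ∈ Cop n, g (n / m) := by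
    rw [← Finset.sum_add_distrib]
    apply Finset.sum_congr rfl
    intro m hm
    have := hle m hm
    simp only [hd]
    omega
  have s2 : ∑ m ∈ Cop n, (g (n / m) - κ m) + ∑ m ∈ Cop n, κ m = ∑ m ∈ Cop n, g (n / m) := by
    rw [← Finset.sum_add_distrib]
    apply Finset.sum_congr rfl
    intro m hm
    have := hκle m hm
    omega
  have hPdata : ∀ m ∈ P, m ∈ Cop n ∧ 5 * m ∈ Cop n ∧ ¬ Kap (n / (5 * m)) ∧ 1 ≤ d m + d (5 * m) := by
    intro m hm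
    obtain ⟨hm', hK⟩ := Finset.mem_filter.1 hm
    obtain ⟨⟨hm1, hm2⟩, hc⟩ := mem_Cop.1 hm'
    obtain ⟨k1, k2⟩ := kap_data hm1 hc hK
    refine ⟨hm', k1, k2, ?_⟩
    by_contra hcon
    have g1 : g (n / m) ≤ (SS n A m).card := by
      simp only [hd] at hcon
      omega
    have g2 : g (n / (5 * m)) ≤ (SS n A (5 * m)).card := by
      simp only [hd] at hcon
      omega
    exact kap_strict h2 h3 h5 hA hAdm hm1 hc hK g1 g2
  have s3 : ∑ m ∈ Cop n, κ m ≤ ∑ m ∈ Cop n, d m := by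
    have e1 : ∑ m ∈ Cop n, κ m = P.card := by
      simp only [hκ]
      rw [← Finset.sum_filter, Finset.sum_const, smul_eq_mul, mul_one]
    rw [e1]
    have e2 : P.card ≤ ∑ m ∈ P, (d m + d (5 * m)) := by
      rw [Finset.card_eq_sum_ones]
      exact Finset.sum_le_sum (fun m hm => (hPdata m hm).2.2.2)
    refine e2.trans ?_
    rw [Finset.sum_add_distrib]
    have e3 : ∑ m ∈ P, d (5 * m) = ∑ m ∈ P.image (fun m => 5 * m), d m := by
      rw [Finset.sum_image]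
      intro a _ b _ hab
      simp only at hab
      omega
    have hdis : Disjoint P (P.image (fun m => 5 * m)) := by
      rw [Finset.disjoint_left]
      intro m hm hm'
      obtain ⟨m', hm'', rfl⟩ := Finset.mem_image.1 hm'
      exact (hPdata m' hm'').2.2.1 (Finset.mem_filter.1 hm).2
    rw [e3, ← Finset.sum_union hdis]
    apply Finset.sum_le_sum_of_subset
    intro m hm
    rcases Finset.mem_union.1 hm with hm | hm
    · exact (hPdata m hm).1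
    · obtain ⟨m', hm'', rfl⟩ := Finset.mem_image.1 hm
      exact (hPdata m' hm'').2.1
  have goal : ∑ m ∈ Cop n, (SS n A m).card ≤ ∑ m ∈ Cop n, (g (n / m) - κ m) := by omega
  refine le_trans (le_of_eq ?_) (goal.trans (le_of_eq ?_))
  · rfl
  · apply Finset.sum_congr rfl
    intro m _
    simp only [hκ]

end Pool.Agent.Helper64.VF
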